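import Pool.Agent.Lib.MP_6e81d8_ag.H54.Main

set_option autoImplicit false

namespace Pool.Agent.Variants.MP_6e81d8_ag.BigPointsQuadratic

theorem result :
  ∀ (r d m M : ℕ) (μ : Fin r → ℕ) (S : Finset (Fin r)), (∀ i, 0 < μ i) →
    ∑ i ∈ S, μ i ≤ d + 1 → (∀ i ∈ S, μ i ≤ M) → (∀ i, i ∉ S → μ i ≤ m) → 10 ≤ m →
    8 * M + 15 * m ^ 2 + 40 * m ≤ 8 * d →
    ∃ F : MvPolynomial (Fin r × Fin 2) ℂ, F ≠ 0 ∧
      ∀ p : Fin r → Fin 2 → ℂ,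
        MvPolynomial.eval (fun ij : Fin r × Fin 2 => p ij.1 ij.2) F ≠ 0 →
        ((Module.finrank ℂ
            ↥(MvPolynomial.restrictTotalDegree (Fin 2) ℂ d ⊓
              ⨅ i : Fin r,
                ((RingHom.ker (MvPolynomial.eval (p i))) ^ (μ i)).restrictScalars ℂ) : ℤ) - 1)
          = max (-1) (((d * (d + 3) / 2 : ℕ) : ℤ)
              - ∑ i : Fin r, ((μ i * (μ i + 1) / 2 : ℕ) : ℤ)) :=
  fun r d m M μ S h1 h2 h3 h4 h5 h6 => Pool.Agent.SHGH54.quadratic r d m M μ S h1 h2 h3 h4 h5 h6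

end Pool.Agent.Variants.MP_6e81d8_ag.BigPointsQuadratic
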